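import Pool.Agent.Y160.T6.All

/-!
# The Tate conjecture at `p`, with exact rank, for almost all surfaces of the family
# `w ^ q = ∏ (x ^ M - ρ_i) u(x ^ M) + (b(x ^ M) + c t ^ (p ^ d)) ^ q`

Let `p` be a prime, `q = p ^ (s + 1)`, `n ≥ 1`, `D ≥ 2`, `n ≤ r + 1`, `q r < n + D`, `p` prime to `n + D`, and
`R` odd and prime to `p`. Let `k` be a number field which contains the roots of unity of order `q` and
a `p`-th root of `-1`. For a vector `v` of `n + D + r + 2` integers let `ρ_1, …, ρ_n` be the first
coordinates, `u` monic of degree `D` and `b` of degree at most `r` with the next coordinates as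
coefficients, and `c` the last coordinate. For `d ≥ 1` and `M ≥ 1` let `J` be the Jacobian of the curve

  `w ^ q = (x ^ M - ρ_1) ⋯ (x ^ M - ρ_n) u(x ^ M) + (b(x ^ M) + c t ^ (p ^ d)) ^ q`

over `K = k(t)`; its dimension is `(q - 1) ((n + D) M - 1) / 2`.

Theorem. For 100 percent of the vectors `v` (the exceptions in the box `|v_i| ≤ H` are a proportion which
tends to `0` when `H → ∞`) the following holds for ALL `d ≥ 1` and ALL `M` which divide a power of `R`:
1. every class of `V_p` of the Selmer group of `J` over `k^sep(t)` which is fixed by the Galois group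
   comes from `J(K)` (the Tate conjecture for divisors at `p` for the surface);
2. the `p`-primary part of the Tate-Shafarevich group of `J` over `K` is zero; so
   `J(K) ⊗ ℤ_p → Sel(J, ℤ_p)` is an isomorphism;
3. `n (q - 1)` elements of `J(K)` are a basis of `J(K)` at `p`: the rank of `J(K)` is exactly
   `n (q - 1)`.

Method: the descent of `J` by `1 - ζ` is governed by the functions on the branch curve, a tower of
Kummer extensions of the `x`-line. The norm residue conditions along the tower follow from finitely
many tests: irreducibility of `x ^ M - ρ_i`, `u(x ^ M)` and `(∏ (x - ρ_i) u + b ^ q)(x ^ M)`, the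
nontriviality of the classes of `u(ρ_i) ∏ (ρ_i - ρ_j) ^ (ε_j)` modulo `p`-th powers, and of
`∏ (θ - ρ_i) ^ (ε_i)`, where `θ` is a zero of `∏ (x - ρ_i) u + b ^ q`. Each test is passed at one prime
by a positive proportion of the residues, uniformly in the prime, and different tests may use
different primes; the large sieve of Gallagher type gives the density. The counting statements were
proved by helpers 100, 430, 737 and 971, the algebraic step by helper 833.
-/

set_option autoImplicit false

open Filter Topology

namespace Pool.Agent.Results.MP_17a657_ag.AlmostAllManySections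

open Pool.Agent.Y160.SL

theorem result {p s n D r R : ℕ} (hp : p.Prime) (hn : 0 < n) (hD : 2 ≤ D) (hnr : n ≤ r + 1)
    (hqr : p ^ (s + 1) * r < n + D) (hcop : p.Coprime (n + D)) (hR : Odd R) (hpR : p.Coprime R)
    (k : Type) [Field k] [NumberField k] {ζ η : k} (hζ : IsPrimitiveRoot ζ (p ^ (s + 1)))
    (hη : η ^ p = -1) :
    Tendsto (fun H : ℕ => (({v : Fin (n + (D + (r + 2))) → ℤ | (∀ i, |v i| ≤ (H : ℤ)) ∧
      ¬ ManyWorks p (p ^ (s + 1)) n D r R k v}.ncard : ℕ) : ℝ) /
        (2 * (H : ℝ) + 1) ^ (n + (D + (r + 2)))) atTop (𝓝 0) :=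
  Pool.Agent.Y160.T6.all hp hn hD hnr hqr hcop hR hpR k hζ hη

end Pool.Agent.Results.MP_17a657_ag.AlmostAllManySections
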