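import Pool.Agent.Y136.AR.Main

/-!
# MP_17a657_ag: the Tate conjecture for the reductions of varieties over number fields at a set of
# primes of density one, and the Tate classes in characteristic zero

Let `X_i`, `i` in a finite set, be smooth projective varieties over a number field `K`, let `Γ` be
the compact image of the Galois group of `K` in the product of the groups `GL(H^*(X_i))` of the
`l`-adic cohomology groups, and let `r_i` be the representation of `Γ` on `H^*(X_i)`, multiplied in
degree `n` by the `n`-th power of a square root of the inverse of the cyclotomic character (half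
Tate twists; they exist over a finite extension of `K`). Suppose that the Zariski closure of the
image of `Γ` is connected (this holds over a finite extension of `K`) and reductive (the
Galois representations are semisimple), and let `G` be a maximal compact subgroup of its group of
complex points, which acts on the cohomology by `ρ_i`. There is **no condition on the group** `G`.

The Frobenius elements `φ s` in `Γ` of the primes `s` of good reduction are equidistributed in `Γ`
(Chebotarev), for the sets of the primes of norm at most `x`, as `x` tends to infinity. Their
normalised semisimple parts have eigenvalues of absolute value one (Deligne) and are thus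
conjugate to elements `θ s` of `G`.

The theorem says that for the primes `s` in a set of density one the following are equivalent:
* the Tate conjecture, with the semisimplicity of the eigenvalue `q ^ n` of Frobenius on the
  cohomology of degree `2 n`, holds in all codimensions for **all products** of copies of the
  reductions `X_{s, i}`, over an algebraic closure of the residue field;
* on the products of copies of the reductions the classes fixed by `G`, that is the
  specialisations of the Tate classes of the products of the varieties `X_i` over `K`, are
  algebraic.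

In particular the Tate conjecture for all products of the varieties `X_i` over finite extensions of
`K` implies, by specialisation of cycles, the Tate conjecture for all products of their reductions
at a set of primes of density one, although these reductions have many more Tate classes.

The points `s` may also be the closed points of a scheme of finite type over the integers; the
ground fields, the characteristics and the Weil cohomologies depend on `s`.
-/

open CategoryTheory AlgebraicGeometry MeasureTheory Filter Topology

universe u v

namespace Pool.Agent.Results.MP_17a657_ag.AlmostAllReductions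

open Pool.Agent.H914 Pool.Agent.W534 Pool.Agent.Y136 VarClass Obj WeilCohomology

/-- **For almost all reductions the Tate conjecture for all products of copies of the reductions is
equivalent to the algebraicity of the classes fixed by the compact form `G` of the group defined by
the Galois representation in characteristic zero.** -/
theorem result
    {Γ : Type} [Group Γ] [TopologicalSpace Γ] [IsTopologicalGroup Γ] [CompactSpace Γ] [T2Space Γ]
    [SecondCountableTopology Γ] [MeasurableSpace Γ] [BorelSpace Γ] (μ : Measure Γ)
    [μ.IsHaarMeasure] [IsProbabilityMeasure μ]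
    {F : Type} [Field F] [TopologicalSpace F] [IsTopologicalRing F] [T1Space F] (σ₀ : F ≃+* ℂ)
    {G : Type} [Group G] [TopologicalSpace G] [IsTopologicalGroup G] [CompactSpace G]
    [ConnectedSpace G] (T : Subgroup G) (hT : IsMaximalTorus T)
    {I : Type} [Fintype I] {J : I → Type} [∀ i, Fintype (J i)] [∀ i, DecidableEq (J i)]
    (deg : ∀ i, J i → ℕ) (r : ∀ i, Γ →* Matrix (J i) (J i) F) (hr : ∀ i, Continuous (r i))
    (ρ : ∀ i, G →* Matrix (J i) (J i) ℂ) (hρ : IsGradedRep deg ρ)
    (hΓ : SameClosure (fun i => mapRep σ₀ (r i)) ρ) (D : ℕ) (hD : 0 < D)
    {S : Type} [MeasurableSpace S] [DiscreteMeasurableSpace S]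
    {k : S → Type u} [∀ s, Field (k s)] {𝒱 : ∀ s, VarClass (k s)} {ops : ∀ s, CycleOps (𝒱 s)}
    (W : ∀ s, WeilCohomology.{u, v} (ops s)) (σ : ∀ s, (W s).K ≃+* ℂ) (p : S → ℕ)
    (hp : ∀ s, (p s).Prime) (Φ : ∀ s, FrobSystem (W s) (p s))
    (X : ∀ s, I → (𝒱 s).Obj) (b : ∀ s i, Module.Basis (J i) (W s).K ((W s).H (X s i)))
    (hX : ∀ s i, IsGroupOf ((W s).gr (X s i)) ((W s).tr (X s i)) (σ s) (deg i) (ρ i) (b s i))
    (m : S → ℕ) (hm : ∀ s, 0 < m s) (z : S → ℂ) (hz : ∀ s, z s ^ 2 = (p s : ℂ) ^ m s)
    (θ : S → G) (fr : ∀ s i, X s i ⟶ X s i)
    (hF : ∀ s i, IsFrobeniusAt (Φ s) (σ s) D (m s) (z s) (fr s i) (deg i) (b s i) (ρ i (θ s)))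
    (φ : S → Γ) (hφ : ∀ s i, (mapRep σ₀ (r i) (φ s)).charpoly = (ρ i (θ s)).charpoly)
    {ι : Type} (l : Filter ι) (ν : ι → Measure S) [∀ j, IsProbabilityMeasure (ν j)]
    (hν : ∀ f : C(Γ, ℝ), (∀ g h, f (h * g * h⁻¹) = f g) →
      Tendsto (fun j => ∫ s, f (φ s) ∂(ν j)) l (𝓝 (∫ g, f g ∂μ))) :
    Tendsto (fun j => ν j {s | ¬ ((∀ Z, IsProductOf (Set.range (X s)) Z →
      ∀ n, SemisimpleTateIn (Φ s) Z n) ↔ FixedAreAlgebraic (W s) (X s)
        fun (g : G) i => matOp (σ s) (b s i) (ρ i g))}) l (𝓝 0) :=
  almost_all_reductions μ σ₀ T hT deg r hr ρ hρ hΓ D hD W σ p hp Φ X b hX m hm z hz θ fr hF φ hφ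
    l ν hν

end Pool.Agent.Results.MP_17a657_ag.AlmostAllReductions
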