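import Pool.Agent.Y160.HI.Fam

/-!
# The Tate conjecture at `p` and the structure of `J(K)` for explicit surfaces of general type
# `w ^ q = (x - ρ₁) ⋯ (x - ρ_m) + h(t) ^ q`

Let `q` be a power of the prime `p`, `m ≥ 3` prime to `p`, `O` a Dedekind domain and `k` its field of
fractions, which contains a primitive `q`-th root of unity (for example, any number field or any
infinite finitely generated field which contains the roots of unity of order `q`). Let

  `h(t) = b₁ + a₁ (b₂ + a₂ (⋯ (b_d + a_d t ^ p) ^ p ⋯) ^ p) ^ p`,

and let `X` be the surface `w ^ q = (x - ρ₁) ⋯ (x - ρ_m) + h(t) ^ q`, fibred over the projective line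
with coordinate `t`, and `J` the Jacobian of the generic fibre over `K = k(t)`; its dimension is
`(q - 1) (m - 1) / 2`, and `h` has degree `p ^ d`.

Theorem. Suppose that the constants `ρ_j`, `b_i`, `a_i` of `O` satisfy explicit congruences
(`IsData`): for some maximal ideals `Q` and `P_{ij}`, `Q ^ q` divides all `ρ_j`; `P_{ij}` divides the
difference `ρ_i - ρ_j` exactly once and no other difference; `Q` divides `b₁` exactly once, and
`P_{ij} ^ 2` divides `b₁`; `Q ^ 2` and `P_{ij} ^ 2` divide `b₂, …, b_d`; and the `a_i` are not zero. Then
1. the Tate conjecture for divisors at the prime `p` holds for `X`;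
2. the `p`-primary part of the Tate-Shafarevich group of `J` over `K` is zero;
3. `(m - 1) (q - 1)` elements of `J(K)` are a basis of `J(K)` at `p`: they are independent and generate
   `J(K)` modulo `p ^ n` for all `n`. In particular, when `k` is finitely generated over its prime
   field, the rank of `J(K)` is exactly `(m - 1) (q - 1)`.
Such constants exist for all `m`, all `d` and all nonzero `a_i`, when `O` has infinitely many maximal
ideals with large residue rings. The geometric genus of `X` is unbounded when `d` grows.

Method: the affine branch curve `(x - ρ₁) ⋯ (x - ρ_m) + h(t) ^ q = 0` is a tower of Kummer extensions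
of degrees `q, p, …, p` of the line with coordinate `x`. By a descent along each layer (the ambiguous
classes of ideals, and congruences at the primes `P_{ij}` and `Q`), every function on this curve whose
divisor is divisible by `p` is a constant times a product of the functions `x - ρ_j` times a `p`-th
power. These functions come from the sections `x = ρ_j`, `w = ζ ^ i h(t)` of the fibration.
-/

set_option autoImplicit false

namespace Pool.Agent.Results.MP_17a657_ag.FamiliesWithRank

open Polynomial IsDedekindDomain Pool.Agent.TH115.GD Pool.Agent.Y160.SL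

theorem result {p s m : ℕ} (hp : p.Prime) (hm : 3 ≤ m) (hcop : p.Coprime m) {O k : Type}
    [CommRing O] [IsDedekindDomain O] [Field k] [Algebra O k] [IsFractionRing O k] {ζ : k}
    (hζ : IsPrimitiveRoot ζ (p ^ (s + 1))) :
    (∀ (ρ : Fin m → O) (l : List (O × O)) (Q : HeightOneSpectrum O)
      (P : Fin m → Fin m → HeightOneSpectrum O), IsData (p ^ (s + 1)) ρ l Q P →
      ∀ (k' K F : Type) [Field k'] [Algebra k k'] [Field K] [Algebra k[X] K] [IsFractionRing k[X] K]
        [Field F] [Algebra k'[X] F] [IsFractionRing k'[X] F] [Algebra K F], IsTower k k' K F →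
        Concl p (p ^ (s + 1)) (m - 1) k k' F ((surf (p ^ (s + 1))
          (∏ j, (X - C (algebraMap O k (ρ j))))
          (nest p (l.map fun x => (algebraMap O k x.1, algebraMap O k x.2)))).map
            (algebraMap k[X] K))) ∧
    (Large O → ∀ (a : O) (as : List O), (∀ x ∈ a :: as, x ≠ 0) →
      ∃ (ρ : Fin m → O) (b : O) (Q : HeightOneSpectrum O)
        (P : Fin m → Fin m → HeightOneSpectrum O),
        IsData (p ^ (s + 1)) ρ ((b, a) :: as.map fun x => (0, x)) Q P) :=
  ⟨fun ρ l Q P hD k' K F _ _ _ _ _ _ _ _ _ hT =>
      Pool.Agent.Y160.HI.fam hp rfl hm hcop hT hζ hD,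
    fun hO a as ha => Pool.Agent.Y160.HI.exists_data (p ^ (s + 1)) m O hO a as ha⟩

end Pool.Agent.Results.MP_17a657_ag.FamiliesWithRank
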