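import Mathlib
import Pool.Agent.Y713.TG.Stm
import Pool.Agent.Y713.TG.StmB

/-!
# Tate classes on the surfaces `y ^ ℓ = ∏ (x - e i)`: a bound by the collisions of the branch points

Let `ℓ` be a prime, `k` a field which contains a primitive root of unity `ζ` of order `ℓ` (for
example finitely generated over its prime field), `k'` a separable closure, `K = k(t)`, `F = k'(t)`,
and let `e 0, …, e (n - 1)` be distinct polynomials in `k[t]`, `n` prime to `ℓ`. Let `X` be the
surface fibred over the `t`-line with the generic fibre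

`C : y ^ ℓ = f(x) = (x - e 0) ⋯ (x - e (n - 1))`

over `K`, `J` the Jacobian of `C`, and `σ` the automorphism `y ↦ ζ y`. So `C` is any cyclic cover of
degree `ℓ` of the line over `K` whose branch points are infinity and `n` rational points, each with
the same local invariant. `IsTateClass` describes the classes in `V_ℓ Sel(J / F)` which are fixed by
the Galois group of `k`, and `TateAt` says that all of them come from `J(K)`; as `Br(X ⊗ k') = Ш(J / F)`
up to `p`-torsion (Grothendieck), this is the Tate conjecture for divisors on `X` at the prime `ℓ`.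

Let `collisions e` be the sum, over the monic irreducible polynomials `π` over `k`, of `n` minus the
number of distinct residues of the `e i` modulo `π`. Suppose that the irreducible factors of the
differences `e i - e j` are separable, and that the branch points are `Rigid`: the only functions
`a : {0, …, n - 1} → ℤ / ℓ` which are harmonic for the weights `mult_π (e i - e j)` for all `π` are the
constants, where only those `π` are used modulo which no new constants become `ℓ`-th powers (for
example those of degree prime to `ℓ`).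

**Theorem** (`result`). The group `J(K) / (1 - σ) J(K)` is finite, and there are `m` Tate classes
which generate all the Tate classes over `ℤ[σ]` modulo the classes from `J(K)`, with
`ℓ ^ m |J(K) / (1 - σ) J(K)| ≤ ℓ ^ (collisions e)` and `m + (n - 1) ≤ collisions e`. So the Tate
conjecture at `ℓ` holds for `X` if `|J(K) / (1 - σ) J(K)| ≥ ℓ ^ (collisions e)`, or if
`collisions e ≤ n - 1`.

Two consequences (`movingPoint` and `genericBound` below, both deduced from `result`):

1. Let `c 0, …, c (m - 1)` be distinct constants and `g` a polynomial of degree prime to `ℓ` such that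
the `g - c i` are irreducible and separable, `m + 1` prime to `ℓ`. The Tate conjecture at `ℓ` holds
for the surface `y ^ ℓ = (x - c 0) ⋯ (x - c (m - 1)) (x - g(t))`.

2. If the differences `e i - e j`, `i < j`, are separable, irreducible, of degree prime to `ℓ` and
pairwise not associated, then the Tate classes are generated over `ℤ[σ]` modulo the classes from
`J(K)` by at most `(n - 1) (n - 2) / 2` elements, for all degrees of the `e i`.

The proof is a descent by `1 - σ` over `F` for the classes fixed by the Galois group. The first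
layer of a Tate class has a residue in `J[1 - σ] = (ℤ / ℓ)^n / (ℤ / ℓ)` at each place of bad
reduction; its conjugates under `Gal(F / K)` differ by the coboundaries of the points of order `1 - σ`,
whose residues are given by the Laplacians of the weighted graphs; by a Kummer argument for the
constants and `Rigid` the residues at conjugate places are equal. The local conditions leave at
`π` a space of dimension `n` minus the number of the distinct residues.
-/

set_option autoImplicit false

open Polynomial IsDedekindDomain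

namespace Pool.Agent.Results.MP_17a657_ag.RationalBranchPoints

open Pool.Agent.TH115.GD (IsTower)
open Pool.Agent.Y713.Tate (TateAt GeneratedBy quotOrder)

section defs

variable {n : ℕ} {k : Type} [Field k]

/-- The polynomial `f(x) = ∏ (x - e i)` over `K = k(t)`. -/
noncomputable def branchPoly (K : Type) [Field K] [Algebra k[X] K] (e : Fin n → k[X]) : K[X] :=
  ∏ i, (X - C (algebraMap k[X] K (e i)))

open Classical in
/-- The monic irreducible factors of the differences `e i - e j`, `i ≠ j`. -/
noncomputable def primes (e : Fin n → k[X]) : Finset k[X] :=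
  (UniqueFactorizationMonoid.normalizedFactors
    (∏ i, ∏ j ∈ Finset.univ.erase i, (e i - e j))).toFinset

/-- The number of distinct residues of the `e i` modulo `π`. -/
noncomputable def residues (e : Fin n → k[X]) (π : k[X]) : ℕ :=
  (Set.range fun i => Ideal.Quotient.mk (Ideal.span {π}) (e i)).ncard

/-- The number of collisions of the branch points: the sum over the monic irreducible `π` of `n`
minus the number of distinct residues of the `e i` modulo `π`. -/
noncomputable def collisions (e : Fin n → k[X]) : ℕ := ∑ π ∈ primes e, (n - residues e π)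

/-- A constant which is an `ℓ`-th power modulo `π` is an `ℓ`-th power. This is the case if the
degree of the irreducible polynomial `π` is prime to `ℓ`. -/
def Stable (ℓ : ℕ) (π : k[X]) : Prop :=
  ∀ (b : k) (q : k[X]), π ∣ q ^ ℓ - C b → ∃ c : k, b = c ^ ℓ

/-- The functions `a : {0, …, n - 1} → ℤ / ℓ` with `∑ j, mult_π (e i - e j) (a i - a j) = 0` for all `i`
and all stable irreducible `π` are constant. -/
def Rigid (ℓ : ℕ) (e : Fin n → k[X]) : Prop :=
  ∀ a : Fin n → ZMod ℓ, (∀ π : k[X], Irreducible π → Stable ℓ π → ∀ i,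
    ∑ j ∈ Finset.univ.erase i, (multiplicity π (e i - e j) : ZMod ℓ) * (a i - a j) = 0) →
    ∀ i j, a i = a j

/-- The root of unity in `K = k(t)`. -/
theorem rootK {ℓ : ℕ} (K : Type) [Field K] [Algebra k[X] K] {ζ : k} (hζ : IsPrimitiveRoot ζ ℓ) :
    algebraMap k[X] K (C ζ) ^ ℓ = 1 := by
  rw [← map_pow, ← C_pow, hζ.pow_eq_one, C_1, map_one]

end defs

theorem result {ℓ n : ℕ} {k k' K F : Type} [Field k] [Field k'] [Algebra k k'] [Field K]
    [Algebra k[X] K] [Field F] [Algebra k'[X] F] [IsFractionRing k'[X] F] [Algebra K F]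
    (hT : IsTower k k' K F) (hℓ : ℓ.Prime) {ζ : k} (hζ : IsPrimitiveRoot ζ ℓ) (hn : ¬ ℓ ∣ n)
    {e : Fin n → k[X]} (he : Function.Injective e)
    (hsep : ∀ i j, i ≠ j → ∀ π : k[X], Irreducible π → π ∣ e i - e j → π.Separable)
    (hR : Rigid ℓ e) :
    quotOrder ℓ (branchPoly K e) (rootK K hζ) ≠ 0 ∧
      (∃ m, GeneratedBy (F := F) ℓ k' (branchPoly K e) (rootK K hζ) m ∧
        ℓ ^ m * quotOrder ℓ (branchPoly K e) (rootK K hζ) ≤ ℓ ^ collisions e ∧
        m + (n - 1) ≤ collisions e) ∧
      (ℓ ^ collisions e ≤ quotOrder ℓ (branchPoly K e) (rootK K hζ) →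
        TateAt (F := F) ℓ k' (branchPoly K e)) ∧
      (collisions e ≤ n - 1 → TateAt (F := F) ℓ k' (branchPoly K e)) :=
  Pool.Agent.Y713.Tate.main' (F := F) hT hℓ hζ (rootK K hζ) hn he hsep hR

section consequences

variable {ℓ n m : ℕ} {k k' K F : Type} [Field k] [Field k'] [Algebra k k'] [Field K]
  [Algebra k[X] K] [Field F] [Algebra k'[X] F] [IsFractionRing k'[X] F] [Algebra K F]

/-- The Tate conjecture at `ℓ` for the surfaces `y ^ ℓ = (x - c 0) ⋯ (x - c (m - 1)) (x - g(t))`. -/
theorem movingPoint (hT : IsTower k k' K F) (hℓ : ℓ.Prime) {ζ : k} (hζ : IsPrimitiveRoot ζ ℓ)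
    (hn : ¬ ℓ ∣ m + 1) {c : Fin m → k} (hc : Function.Injective c) {g : k[X]}
    (hg : ∀ i, Irreducible (g - C (c i)) ∧ (g - C (c i)).Separable) (hd : ¬ ℓ ∣ g.natDegree) :
    TateAt (F := F) ℓ k' (branchPoly K (Fin.snoc (fun i => C (c i)) g : Fin (m + 1) → k[X])) := by
  have hirr : ∀ i, Irreducible (g - C (c i)) := fun i => (hg i).1
  have hd' : ∀ i, ¬ ℓ ∣ (g - C (c i)).natDegree := fun i => by
    rwa [natDegree_sub_C]
  obtain ⟨-, -, -, h3⟩ := result (F := F) hT hℓ hζ hn
    (Pool.Agent.Y713.SE.brf_inj hc hirr) (fun i j hij π hπ hdv => by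
      obtain ⟨i0, h4, -⟩ := Pool.Agent.Y713.SE.brf_dvd hc hirr hπ hij hdv
      exact ((hg i0).2).of_dvd h4.dvd)
    (Pool.Agent.Y713.SE.brf_rigid hc hirr hℓ hd')
  exact h3 (Pool.Agent.Y713.SE.brf_coll hc hirr)

/-- The number of generators for irreducible differences. -/
theorem genericBound (hT : IsTower k k' K F) (hℓ : ℓ.Prime) {ζ : k} (hζ : IsPrimitiveRoot ζ ℓ)
    (hn : ¬ ℓ ∣ n) {e : Fin n → k[X]}
    (h1 : ∀ i j, i ≠ j → Irreducible (e i - e j) ∧ (e i - e j).Separable ∧
      ¬ ℓ ∣ (e i - e j).natDegree)
    (h2 : ∀ i j i' j', i ≠ j → i' ≠ j' → (e i - e j) ∣ (e i' - e j') →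
      (i = i' ∧ j = j') ∨ (i = j' ∧ j = i')) :
    ∃ m ≤ (n - 1) * (n - 2) / 2,
      GeneratedBy (F := F) ℓ k' (branchPoly K e) (rootK K hζ) m := by
  have he : Pool.Agent.Y713.SE.Irr e := ⟨fun i j hij => (h1 i j hij).1, h2⟩
  obtain ⟨-, ⟨m, h3, -, h5⟩, -, -⟩ := result (F := F) hT hℓ hζ hn he.inj
    (fun i j hij π hπ hdv => ((h1 i j hij).2.1).of_dvd hdv)
    (he.rigid hℓ fun i j hij => (h1 i j hij).2.2)
  refine ⟨m, ?_, h3⟩
  have h6 : collisions e ≤ n * (n - 1) / 2 := he.coll
  have h7 : n * (n - 1) / 2 = (n - 1) + (n - 1) * (n - 2) / 2 := by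
    rcases n with _ | _ | n
    · rfl
    · rfl
    · have e1 : (n + 1 + 1) * (n + 1 + 1 - 1) = 2 * (n + 1) + (n + 1) * n := by
        rw [Nat.add_sub_cancel]
        ring
      have e2 : (n + 1 + 1 - 1) * (n + 1 + 1 - 2) = (n + 1) * n := rfl
      rw [e1, e2, Nat.mul_add_div (by norm_num : 0 < 2)]
      rfl
  omega

end consequences

end Pool.Agent.Results.MP_17a657_ag.RationalBranchPoints
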